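import Pool.Agent.Q205.Baire.Spec

/-! Convergence of local statistics along sequences of heights whose quotients tend to one (helper40). -/

set_option autoImplicit false

namespace Pool.Agent.Help40.BG

open Filter Topology Set MeasureTheory
open Pool.Agent.Q205.Baire

variable {M : Type*} [TopologicalSpace M]

/-- the last index `n` with `τ n ≤ T` -/
theorem last_index {τ : ℕ → ℝ} (hτ : Tendsto τ atTop atTop) :
    ∃ N : ℝ → ℕ, Tendsto N atTop atTop ∧ ∀ᶠ T in atTop, τ (N T) ≤ T ∧ T < τ (N T + 1) := by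
  classical
  have hb : ∀ T : ℝ, BddAbove {n : ℕ | τ n ≤ T} := by
    intro T
    obtain ⟨m, hm⟩ := eventually_atTop.1 (hτ.eventually (eventually_gt_atTop T))
    refine ⟨m, fun n hn => ?_⟩
    by_contra h
    have := hm n (not_le.1 h).le
    exact absurd hn (not_le.2 this)
  refine ⟨fun T => sSup {n : ℕ | τ n ≤ T}, ?_, ?_⟩
  · rw [tendsto_atTop]
    intro n
    filter_upwards [eventually_ge_atTop (τ n)] with T hT
    exact le_csSup (hb T) hT
  · filter_upwards [eventually_ge_atTop (τ 0)] with T hT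
    refine ⟨Nat.sSup_mem ⟨0, hT⟩ (hb T), ?_⟩
    by_contra h
    have h1 : sSup {n : ℕ | τ n ≤ T} + 1 ≤ sSup {n : ℕ | τ n ≤ T} := le_csSup (hb T) (not_lt.1 h)
    omega

theorem heights_nonneg {E : Type*} [TopologicalSpace E] (X : Spectra M) (L : LocalStat E)
    (hI : Monotone L.I) {f : E → ℝ} (h0 : ∀ z, 0 ≤ f z) (g : M) {τ : ℕ → ℝ}
    (hτ : Tendsto τ atTop atTop) (hr : Tendsto (fun n => τ (n + 1) / τ n) atTop (𝓝 1)) {c : ℝ}
    (hc : Tendsto (fun n => S X L f (τ n) g) atTop (𝓝 c)) :
    Tendsto (fun T => S X L f T g) atTop (𝓝 c) := by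
  obtain ⟨N, hN, hN2⟩ := last_index hτ
  obtain ⟨A, hA⟩ : ∃ A : ℝ → ℝ, A = fun T => ∑ i ∈ L.I (count X T g), f (L.φ i (fun k => X.x k g)) :=
    ⟨_, rfl⟩
  have hS : ∀ T, S X L f T g = A T / T := fun T => by rw [hA]; rfl
  have hcount : ∀ T T' : ℝ, T ≤ T' → count X T g ≤ count X T' g := by
    intro T T' h
    by_contra hlt
    have h1 : count X T' g < count X T g := not_le.1 hlt
    have h2 := (lt_count X T g _).1 h1
    have h3 := (lt_count X T' g (count X T' g)).2 (h2.trans h)
    exact lt_irrefl _ h3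
  have hmono : ∀ T T' : ℝ, T ≤ T' → A T ≤ A T' := by
    intro T T' h
    rw [hA]
    exact Finset.sum_le_sum_of_subset_of_nonneg (hI (hcount T T' h)) fun i _ _ => h0 _
  have hA0 : ∀ T, 0 ≤ A T := fun T => by rw [hA]; exact Finset.sum_nonneg fun i _ => h0 _
  -- the two bounds
  have hr' : Tendsto (fun n => τ n / τ (n + 1)) atTop (𝓝 1) := by
    have := hr.inv₀ one_ne_zero
    simpa [inv_div] using this
  have hlow : Tendsto (fun n => S X L f (τ n) g * (τ n / τ (n + 1))) atTop (𝓝 c) := by
    have := hc.mul hr'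
    rwa [mul_one] at this
  have hup : Tendsto (fun n => S X L f (τ (n + 1)) g * (τ (n + 1) / τ n)) atTop (𝓝 c) := by
    have := ((tendsto_add_atTop_iff_nat 1).2 hc).mul hr
    rwa [mul_one] at this
  have hpos : ∀ᶠ T : ℝ in atTop, 0 < τ (N T) := (hτ.comp hN).eventually (eventually_gt_atTop 0)
  refine tendsto_of_tendsto_of_tendsto_of_le_of_le' (hlow.comp hN) (hup.comp hN) ?_ ?_
  · filter_upwards [hN2, hpos] with T h1 h2
    have hT0 : 0 < T := h2.trans_le h1.1
    have h3 : 0 < τ (N T + 1) := hT0.trans h1.2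
    simp only [Function.comp, hS]
    have e : A (τ (N T)) / τ (N T) * (τ (N T) / τ (N T + 1)) = A (τ (N T)) / τ (N T + 1) := by
      field_simp
    rw [e]
    calc A (τ (N T)) / τ (N T + 1) ≤ A (τ (N T)) / T :=
          div_le_div_of_nonneg_left (hA0 _) hT0 h1.2.le
      _ ≤ A T / T := by gcongr; exact hmono _ _ h1.1
  · filter_upwards [hN2, hpos] with T h1 h2
    have hT0 : 0 < T := h2.trans_le h1.1
    have h3 : 0 < τ (N T + 1) := hT0.trans h1.2
    simp only [Function.comp, hS]
    have e : A (τ (N T + 1)) / τ (N T + 1) * (τ (N T + 1) / τ (N T)) = A (τ (N T + 1)) / τ (N T) := by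
      field_simp
    rw [e]
    calc A T / T ≤ A T / τ (N T) := div_le_div_of_nonneg_left (hA0 _) h2 h1.1
      _ ≤ A (τ (N T + 1)) / τ (N T) := by gcongr; exact hmono _ _ h1.2.le

/-- convergence along the heights `τ n` of the averages of all test functions gives convergence -/
theorem heights {n : ℕ} (X : Spectra M) (L : LocalStat (Fin n → ℝ)) (hI : Monotone L.I)
    (μ : Measure (Fin n → ℝ)) [IsFiniteMeasureOnCompacts μ] (g : M) {τ : ℕ → ℝ}
    (hτ : Tendsto τ atTop atTop) (hr : Tendsto (fun n => τ (n + 1) / τ n) atTop (𝓝 1))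
    (hc : ∀ f : (Fin n → ℝ) → ℝ, Continuous f → HasCompactSupport f →
      Tendsto (fun n => S X L f (τ n) g) atTop (𝓝 (∫ z, f z ∂μ)))
    (f : (Fin n → ℝ) → ℝ) (hf : Continuous f) (hs : HasCompactSupport f) :
    Tendsto (fun T => S X L f T g) atTop (𝓝 (∫ z, f z ∂μ)) := by
  set p : (Fin n → ℝ) → ℝ := fun z => max (f z) 0 with hp
  set q : (Fin n → ℝ) → ℝ := fun z => max (-f z) 0 with hq
  have hpc : Continuous p := hf.max continuous_const
  have hqc : Continuous q := hf.neg.max continuous_const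
  have hps : HasCompactSupport p := hs.comp_left (g := fun t : ℝ => max t 0) (by simp)
  have hqs : HasCompactSupport q := hs.comp_left (g := fun t : ℝ => max (-t) 0) (by simp)
  have hfp : ∀ z, f z = p z - q z := by
    intro z
    simp only [hp, hq]
    rcases le_total (f z) 0 with h | h
    · rw [max_eq_right h, max_eq_left (by linarith)]; ring
    · rw [max_eq_left h, max_eq_right (by linarith)]; ring
  have h1 := heights_nonneg X L hI (fun z => le_max_right _ _) g hτ hr (hc p hpc hps)
  have h2 := heights_nonneg X L hI (fun z => le_max_right _ _) g hτ hr (hc q hqc hqs)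
  have h3 := h1.sub h2
  have e1 : ∫ z, f z ∂μ = ∫ z, p z ∂μ - ∫ z, q z ∂μ := by
    rw [← integral_sub (hpc.integrable_of_hasCompactSupport hps)
      (hqc.integrable_of_hasCompactSupport hqs)]
    exact integral_congr_ae (ae_of_all _ hfp)
  rw [e1]
  refine h3.congr fun T => ?_
  unfold S
  rw [← sub_div, ← Finset.sum_sub_distrib]
  congr 1
  exact Finset.sum_congr rfl fun i _ => (hfp _).symm

end Pool.Agent.Help40.BG
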