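import Pool.Agent.Q205.Baire.Joint
import Pool.Agent.Q205.Lim.Int

/-! Generic convergence of local statistics and local uniformity (helper40). -/

set_option autoImplicit false

namespace Pool.Agent.Help40.BG

open Filter Topology Set MeasureTheory
open Pool.Agent.Q205.Baire

variable {M : Type*} [TopologicalSpace M]

/-- near `g` the deviation from `c` is at most `ε`, uniformly, at all heights from some height on -/
def LU (B : ℝ → M → ℝ) (c ε : ℝ) : Set M :=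
  {g | ∃ T0 : ℝ, ∃ V ∈ 𝓝 g, ∀ g' ∈ V, ∀ T, T0 ≤ T → |B T g' - c| ≤ ε}

theorem isOpen_LU (B : ℝ → M → ℝ) (c ε : ℝ) : IsOpen (LU B c ε) := by
  rw [isOpen_iff_mem_nhds]
  rintro g ⟨T0, V, hV, h⟩
  obtain ⟨W, hWV, hW, hgW⟩ := mem_nhds_iff.1 hV
  filter_upwards [hW.mem_nhds hgW] with g' hg'
  exact ⟨T0, W, hW.mem_nhds hg', fun g'' hg'' => h g'' (hWV hg'')⟩

/-- outside of the open set of local uniformity the generic parameter deviates infinitely often -/
theorem generic_dev {B : ℝ → M → ℝ} (hB : Nice B) (c ε : ℝ) :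
    ∀ᶠ g in residual M, g ∉ LU B c ε → ∃ᶠ T in atTop, ε < |B T g - c| := by
  have key : ∀ n : ℕ, ∀ᶠ g in residual M, g ∈ F B c ε ((n : ℝ) + 1) →
      g ∈ interior (F B c ε ((n : ℝ) + 1)) := fun n => ev_int (isClosed_F hB c ε (by positivity))
  filter_upwards [eventually_countable_forall.2 key] with g hg hno
  rw [frequently_atTop]
  intro a
  obtain ⟨n, hn⟩ := exists_nat_ge a
  by_contra hcon
  push Not at hcon
  apply hno
  have h1 : g ∈ F B c ε ((n : ℝ) + 1) := fun T hT => hcon T (by linarith)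
  exact ⟨(n : ℝ) + 1, interior (F B c ε ((n : ℝ) + 1)), isOpen_interior.mem_nhds (hg n h1),
    fun g' hg' => interior_subset hg'⟩

/-- the generic point of the closure of an open set is in the set -/
theorem generic_closure {O : Set M} (hO : IsOpen O) :
    ∀ᶠ g in residual M, g ∈ closure O → g ∈ O := by
  have h1 : IsOpen (frontier O)ᶜ := isClosed_frontier.isOpen_compl
  have h2 : Dense (frontier O)ᶜ := by
    rw [← interior_eq_empty_iff_dense_compl, ← frontier_compl]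
    exact interior_frontier hO.isClosed_compl
  filter_upwards [residual_of_dense_open h1 h2] with x hx hxA
  by_contra hno
  exact hx ⟨hxA, by rwa [hO.interior_eq]⟩

section stat

variable {n : ℕ}

/-- local uniformity for all test functions from countably many -/
theorem LU_of_tf (X : Spectra M) (L : LocalStat (Fin n → ℝ)) (μ : Measure (Fin n → ℝ))
    [IsFiniteMeasureOnCompacts μ] {f : (Fin n → ℝ) → ℝ} (hf : Continuous f)
    (hs : HasCompactSupport f) {ε : ℝ} (hε : 0 < ε) :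
    ∃ (k m j : ℕ), LU (S X L (tf (k, m))) (∫ z, tf (k, m) z ∂μ) (1 / ((j : ℝ) + 1)) ∩
      LU (S X L (cut m)) (∫ z, cut m z ∂μ) (1 / (((0 : ℕ) : ℝ) + 1)) ⊆ LU (S X L f) (∫ z, f z ∂μ) ε := by
  obtain ⟨m, hm⟩ := exists_radius hf hs
  set C : ℝ := ∫ z, cut m z ∂μ with hC
  have hC0 : 0 ≤ C := integral_nonneg fun z => cut_nonneg m z
  set η : ℝ := ε / (2 * (C + 1) + 1) with hη
  have hηpos : 0 < η := by positivity
  obtain ⟨k, hk⟩ := hm η hηpos
  obtain ⟨j, hj⟩ := exists_nat_one_div_lt hηpos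
  have hint : |∫ z, f z ∂μ - ∫ z, tf (k, m) z ∂μ| ≤ η * C := by
    rw [← integral_sub (hf.integrable_of_hasCompactSupport hs)
      ((tf_cont (k, m)).integrable_of_hasCompactSupport (tf_supp (k, m)))]
    calc |∫ z, (f z - tf (k, m) z) ∂μ| ≤ ∫ z, |f z - tf (k, m) z| ∂μ := abs_integral_le_integral_abs
      _ ≤ ∫ z, η * cut m z ∂μ := by
          apply integral_mono_of_nonneg
          · exact ae_of_all _ fun z => abs_nonneg _
          · exact ((cut_cont m).integrable_of_hasCompactSupport (cut_supp m)).const_mul η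
          · exact ae_of_all _ hk
      _ = η * C := by rw [integral_const_mul]
  refine ⟨k, m, j, ?_⟩
  rintro g ⟨⟨T1, V1, hV1, h1⟩, ⟨T2, V2, hV2, h2⟩⟩
  refine ⟨max (max T1 T2) 1, V1 ∩ V2, inter_mem hV1 hV2, fun g' hg' T hT => ?_⟩
  have hT1 : T1 ≤ T := (le_max_left _ _).trans ((le_max_left _ _).trans hT)
  have hT2 : T2 ≤ T := (le_max_right _ _).trans ((le_max_left _ _).trans hT)
  have hT0 : 0 < T := lt_of_lt_of_le one_pos ((le_max_right _ _).trans hT)
  have e1 := h1 g' hg'.1 T hT1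
  have e2 := h2 g' hg'.2 T hT2
  norm_num at e2
  have hsum : |S X L f T g' - S X L (tf (k, m)) T g'| ≤ η * S X L (cut m) T g' := by
    unfold S
    rw [← sub_div, ← Finset.sum_sub_distrib, abs_div, abs_of_pos hT0, ← mul_div_assoc]
    apply div_le_div_of_nonneg_right _ hT0.le
    rw [Finset.mul_sum]
    exact (Finset.abs_sum_le_sum_abs _ _).trans (Finset.sum_le_sum fun i _ => hk _)
  have h3 : S X L (cut m) T g' ≤ C + 1 := by
    have := (abs_le.1 e2).2
    linarith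
  have h5 : η * S X L (cut m) T g' ≤ η * (C + 1) := mul_le_mul_of_nonneg_left h3 hηpos.le
  have h6 : |S X L f T g' - ∫ z, f z ∂μ| ≤ |S X L f T g' - S X L (tf (k, m)) T g'|
      + |S X L (tf (k, m)) T g' - ∫ z, tf (k, m) z ∂μ| + |∫ z, f z ∂μ - ∫ z, tf (k, m) z ∂μ| := by
    have e : S X L f T g' - ∫ z, f z ∂μ = (S X L f T g' - S X L (tf (k, m)) T g')
      + (S X L (tf (k, m)) T g' - ∫ z, tf (k, m) z ∂μ)
      - (∫ z, f z ∂μ - ∫ z, tf (k, m) z ∂μ) := by ring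
    rw [e]
    refine (abs_sub _ _).trans ?_
    gcongr
    exact abs_add_le _ _
  have h7 : η * (2 * (C + 1) + 1) = ε := by
    rw [hη]; field_simp
  have h8 : |S X L (tf (k, m)) T g' - ∫ z, tf (k, m) z ∂μ| ≤ η := e1.trans hj.le
  nlinarith

end stat

section main

variable (X : Spectra M) {𝒜 : Type} (d : 𝒜 → ℕ)
  (L : ∀ a, LocalStat (Fin (d a) → ℝ)) (μ : ∀ a, Measure (Fin (d a) → ℝ))

/-- the countable test functions -/
noncomputable def bs {n : ℕ} : (ℕ × ℕ) ⊕ ℕ → (Fin n → ℝ) → ℝ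
  | Sum.inl a => tf a
  | Sum.inr m => cut m

theorem bs_cont {n : ℕ} (t : (ℕ × ℕ) ⊕ ℕ) : Continuous (bs t : (Fin n → ℝ) → ℝ) := by
  rcases t with a | m
  · exact tf_cont a
  · exact cut_cont m

theorem bs_supp {n : ℕ} (t : (ℕ × ℕ) ⊕ ℕ) : HasCompactSupport (bs t : (Fin n → ℝ) → ℝ) := by
  rcases t with a | m
  · exact tf_supp a
  · exact cut_supp m

/-- the open sets of local uniformity for the countable test functions -/
noncomputable def W (p : 𝒜 × ((ℕ × ℕ) ⊕ ℕ) × ℕ) : Set M :=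
  LU (S X (L p.1) (bs p.2.1)) (∫ z, bs p.2.1 z ∂(μ p.1)) (1 / ((p.2.2 : ℝ) + 1))

theorem isOpen_W (p : 𝒜 × ((ℕ × ℕ) ⊕ ℕ) × ℕ) : IsOpen (W X d L μ p) := isOpen_LU _ _ _

theorem good_of_W [∀ a, IsFiniteMeasureOnCompacts (μ a)] {g : M} (h : ∀ p, g ∈ W X d L μ p) :
    Good X d L μ g := by
  have key : ∀ (a : 𝒜) (t : (ℕ × ℕ) ⊕ ℕ),
      Tendsto (fun T => S X (L a) (bs t) T g) atTop (𝓝 (∫ z, bs t z ∂(μ a))) := by
    intro a t
    rw [Metric.tendsto_nhds]
    intro ε hε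
    obtain ⟨j, hj⟩ := exists_nat_one_div_lt hε
    obtain ⟨T0, V, hV, h1⟩ := h (a, t, j)
    filter_upwards [eventually_ge_atTop T0] with T hT
    rw [Real.dist_eq]
    exact (h1 g (mem_of_mem_nhds hV) T hT).trans_lt hj
  intro a f hf hs
  exact tendsto_of_tf X (L a) (μ a) g (fun b => key a (Sum.inl b)) (fun m => key a (Sum.inr m)) hf hs

/-- local uniformity for all test functions in an open set -/
theorem LU_dense [∀ a, IsFiniteMeasureOnCompacts (μ a)] {U : Set M} (hU : IsOpen U)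
    (h : ∀ p, U ⊆ closure (W X d L μ p)) (a : 𝒜) {f : (Fin (d a) → ℝ) → ℝ} (hf : Continuous f)
    (hs : HasCompactSupport f) {ε : ℝ} (hε : 0 < ε) :
    U ⊆ closure (LU (S X (L a) f) (∫ z, f z ∂(μ a)) ε) := by
  obtain ⟨k, m, j, hsub⟩ := LU_of_tf X (L a) (μ a) hf hs hε
  have h1 := h (a, Sum.inl (k, m), j)
  have h2 := h (a, Sum.inr m, 0)
  intro g hg
  rw [mem_closure_iff]
  intro O hO hgO
  obtain ⟨g1, ⟨h3, h3'⟩, h4⟩ := (mem_closure_iff.1 (h1 hg)) (O ∩ U) (hO.inter hU) ⟨hgO, hg⟩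
  obtain ⟨g2, ⟨⟨h5, h5'⟩, h6⟩, h7⟩ := (mem_closure_iff.1 (h2 h3'))
    ((O ∩ U) ∩ W X d L μ (a, Sum.inl (k, m), j)) ((hO.inter hU).inter (isOpen_W X d L μ _))
    ⟨⟨h3, h3'⟩, h4⟩
  exact ⟨g2, h5, hsub ⟨h6, h7⟩⟩

/-- local uniformity gives generic convergence -/
theorem generic_of_dense [Countable 𝒜] [∀ a, IsFiniteMeasureOnCompacts (μ a)] {U : Set M}
    (h : ∀ p, U ⊆ closure (W X d L μ p)) : ∀ᶠ g in residual M, g ∈ U → Good X d L μ g := by
  filter_upwards [eventually_countable_forall.2 fun p => generic_closure (isOpen_W X d L μ p)]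
    with g hg hgU
  exact good_of_W X d L μ fun p => hg p (h p hgU)

/-- **Generic convergence in an open set is locally uniform.** -/
theorem local_iff [BaireSpace M] [Countable 𝒜] [∀ a, IsFiniteMeasureOnCompacts (μ a)] {U : Set M}
    (hU : IsOpen U) : (∀ᶠ g in residual M, g ∈ U → Good X d L μ g) ↔
      ∀ (a : 𝒜) (f : (Fin (d a) → ℝ) → ℝ), Continuous f → HasCompactSupport f → ∀ ε : ℝ, 0 < ε →
        U ⊆ closure (LU (S X (L a) f) (∫ z, f z ∂(μ a)) ε) := by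
  constructor
  · intro h a f hf hs ε hε
    by_contra hno
    obtain ⟨g, hgU, hg⟩ := not_subset.1 hno
    have hne : (U ∩ (closure (LU (S X (L a) f) (∫ z, f z ∂(μ a)) ε))ᶜ).Nonempty := ⟨g, hgU, hg⟩
    have ho : IsOpen (U ∩ (closure (LU (S X (L a) f) (∫ z, f z ∂(μ a)) ε))ᶜ) :=
      hU.inter isClosed_closure.isOpen_compl
    obtain ⟨g', ⟨h1, h2⟩, h3, h4⟩ := (dense_of_mem_residual
      (h.and (generic_dev (nice_S X (L a) hf) (∫ z, f z ∂(μ a)) ε))).inter_open_nonempty _ ho hne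
    have h5 : ∀ᶠ T in atTop, |S X (L a) f T g' - ∫ z, f z ∂(μ a)| < ε := by
      have := (Metric.tendsto_nhds.1 (h3 h1 a f hf hs)) ε hε
      simpa [Real.dist_eq] using this
    obtain ⟨T, hT1, hT2⟩ := ((h4 fun hc => h2 (subset_closure hc)).and_eventually h5).exists
    linarith
  · intro h
    exact generic_of_dense X d L μ fun p => h p.1 _ (bs_cont p.2.1) (bs_supp p.2.1) _ (by positivity)

/-- **Alternative.** -/
theorem alternative_conv [Countable 𝒜] [∀ a, IsFiniteMeasureOnCompacts (μ a)] :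
    ∃ U₁ U₂ : Set M, IsOpen U₁ ∧ IsOpen U₂ ∧ Disjoint U₁ U₂ ∧ Dense (U₁ ∪ U₂) ∧
      (∀ᶠ g in residual M, g ∈ U₁ → Good X d L μ g) ∧
      (∀ (a : 𝒜) (f : (Fin (d a) → ℝ) → ℝ), Continuous f → HasCompactSupport f → ∀ ε : ℝ, 0 < ε →
        U₁ ⊆ closure (LU (S X (L a) f) (∫ z, f z ∂(μ a)) ε)) ∧
      ∀ g ∈ U₂, ∃ (a : 𝒜) (f : (Fin (d a) → ℝ) → ℝ), Continuous f ∧ HasCompactSupport f ∧
        ∃ ε : ℝ, 0 < ε ∧ ∃ V ∈ 𝓝 g, ∀ᶠ g' in residual M, g' ∈ V →
          ∃ᶠ T in atTop, ε < |S X (L a) f T g' - ∫ z, f z ∂(μ a)| := by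
  set U₂ : Set M := ⋃ p, (closure (W X d L μ p))ᶜ with hU₂
  have hU₂o : IsOpen U₂ := isOpen_iUnion fun _ => isClosed_closure.isOpen_compl
  have hsub : ∀ p, (closure U₂)ᶜ ⊆ closure (W X d L μ p) := by
    intro p g hg
    by_contra hcon
    exact hg (subset_closure (mem_iUnion.2 ⟨p, hcon⟩))
  have hU₁o : IsOpen (closure U₂)ᶜ := isClosed_closure.isOpen_compl
  refine ⟨(closure U₂)ᶜ, U₂, hU₁o, hU₂o, disjoint_compl_left.mono_right subset_closure, ?_,
    generic_of_dense X d L μ hsub, fun a f hf hs ε hε => LU_dense X d L μ hU₁o hsub a hf hs hε, ?_⟩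
  · rw [dense_iff_inter_open]
    intro O hO hne
    by_cases h : (O ∩ U₂).Nonempty
    · obtain ⟨g, h1, h2⟩ := h
      exact ⟨g, h1, Or.inr h2⟩
    · obtain ⟨g, hg⟩ := hne
      refine ⟨g, hg, Or.inl fun hc => ?_⟩
      rw [mem_closure_iff] at hc
      exact h (hc O hO hg)
  · intro g hg
    obtain ⟨p, hp⟩ := mem_iUnion.1 hg
    refine ⟨p.1, bs p.2.1, bs_cont _, bs_supp _, 1 / ((p.2.2 : ℝ) + 1), by positivity,
      (closure (W X d L μ p))ᶜ, isClosed_closure.isOpen_compl.mem_nhds hp, ?_⟩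
    filter_upwards [generic_dev (nice_S X (L p.1) (bs_cont p.2.1)) (∫ z, bs p.2.1 z ∂(μ p.1))
      (1 / ((p.2.2 : ℝ) + 1))] with g' h1 h2
    exact h1 fun hc => h2 (subset_closure hc)

end main

end Pool.Agent.Help40.BG
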